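import Pool.Agent.Helper90.ST.Defs

set_option autoImplicit false

/-!
# Basics on partial congruence partitions (piece PCP of S09391, MP_6ecf75_co)
-/

namespace Pool.Agent.Helper90.ST

theorem IsPCP.mul_eq {G ι : Type} [Group G] {H : ι → Subgroup G} {s : ℕ} (h : IsPCP H s)
    (hs : 0 < s) {i j : ι} (hij : i ≠ j) (g : G) : ∃ a ∈ H i, ∃ b ∈ H j, g = a * b := by
  have hfin : Finite G := Nat.finite_of_card_ne_zero (by rw [h.cardG]; positivity)
  let f : H i × H j → G := fun x => x.1.1 * x.2.1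
  have hf : Function.Injective f := by
    rintro ⟨⟨a, ha⟩, ⟨b, hb⟩⟩ ⟨⟨a', ha'⟩, ⟨b', hb'⟩⟩ hx
    have hx' : a * b = a' * b' := hx
    have h1 : a'⁻¹ * a = b' * b⁻¹ := by
      calc a'⁻¹ * a = a'⁻¹ * (a * b) * b⁻¹ := by group
        _ = a'⁻¹ * (a' * b') * b⁻¹ := by rw [hx']
        _ = b' * b⁻¹ := by group
    have h2 : a'⁻¹ * a = 1 :=
      h.disj i j hij _ ((H i).mul_mem ((H i).inv_mem ha') ha)
        (by rw [h1]; exact (H j).mul_mem hb' ((H j).inv_mem hb))
    have h3 : a' = a := inv_mul_eq_one.1 h2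
    subst h3
    have h4 : b = b' := mul_left_cancel hx'
    subst h4
    rfl
  have hcard : Nat.card (H i × H j) = Nat.card G := by
    rw [Nat.card_prod, h.cardH, h.cardH, h.cardG]
    ring
  have hbij : Function.Bijective f := (Nat.bijective_iff_injective_and_card f).2 ⟨hf, hcard⟩
  obtain ⟨⟨a, b⟩, hab⟩ := hbij.2 g
  exact ⟨a, a.2, b, b.2, hab.symm⟩

theorem IsPCP.conj_disj {G ι : Type} [Group G] {H : ι → Subgroup G} {s : ℕ} (h : IsPCP H s)
    (hs : 0 < s) {i j : ι} (hij : i ≠ j) (g : G) : ∀ a ∈ H i, g * a * g⁻¹ ∈ H j → a = 1 := by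
  intro a ha hg
  obtain ⟨b, hb, c, hc, rfl⟩ := h.mul_eq hs hij.symm g
  have h1 : c * a * c⁻¹ ∈ H j := by
    have h2 : c * a * c⁻¹ = b⁻¹ * (b * c * a * (b * c)⁻¹) * b := by group
    rw [h2]
    exact (H j).mul_mem ((H j).mul_mem ((H j).inv_mem hb) hg) hb
  have h3 : c * a * c⁻¹ ∈ H i := (H i).mul_mem ((H i).mul_mem hc ha) ((H i).inv_mem hc)
  have h4 := h.disj i j hij _ h3 h1
  exact conj_eq_one_iff.1 h4

/-- number of nontrivial elements -/
theorem pcp_card_sub_one {G : Type} [Group G] [Fintype G] [DecidableEq G] (K : Subgroup G) :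
    ((SF K).erase 1).card = Nat.card K - 1 := by
  rw [Finset.card_erase_of_mem (by simp [K.one_mem]), card_SF]

theorem sum_card_le {G ι : Type} [Group G] [Finite G] [Fintype ι] (H : ι → Subgroup G)
    (hd : ∀ i j, i ≠ j → ∀ a ∈ H i, a ∈ H j → a = 1) (M : Subgroup G) :
    ∑ i, (Nat.card (H i ⊓ M : Subgroup G) - 1) ≤ Nat.card M - 1 := by
  classical
  have : Fintype G := Fintype.ofFinite G
  rw [← pcp_card_sub_one M]
  have h1 : ∑ i, (Nat.card (H i ⊓ M : Subgroup G) - 1) =
      (Finset.univ.biUnion (fun i => (SF (H i ⊓ M)).erase 1)).card := by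
    rw [Finset.card_biUnion]
    · exact Finset.sum_congr rfl (fun i _ => (pcp_card_sub_one _).symm)
    · intro i _ j _ hij
      rw [Function.onFun, Finset.disjoint_left]
      intro g hg hg'
      rw [Finset.mem_erase, mem_SF, Subgroup.mem_inf] at hg hg'
      exact hg.1 (hd i j hij g hg.2.1 hg'.2.1)
  rw [h1]
  apply Finset.card_le_card
  intro g hg
  rw [Finset.mem_biUnion] at hg
  obtain ⟨i, -, hg⟩ := hg
  rw [Finset.mem_erase, mem_SF, Subgroup.mem_inf] at hg
  rw [Finset.mem_erase, mem_SF]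
  exact ⟨hg.1, hg.2.2⟩

theorem IsPCP.card_le {G ι : Type} [Group G] [Finite ι] {H : ι → Subgroup G} {s : ℕ}
    (h : IsPCP H s) (hs : 1 < s) : Nat.card ι ≤ s + 1 := by
  classical
  have : Fintype ι := Fintype.ofFinite ι
  have hfin : Finite G := Nat.finite_of_card_ne_zero (by rw [h.cardG]; positivity)
  have h1 := sum_card_le H h.disj ⊤
  simp only [inf_top_eq, h.cardH, Finset.sum_const, smul_eq_mul, Finset.card_univ] at h1
  rw [show Nat.card (⊤ : Subgroup G) = s ^ 2 by rw [Subgroup.card_top, h.cardG],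
    ← Nat.card_eq_fintype_card] at h1
  obtain ⟨r, rfl⟩ : ∃ r, s = r + 1 := ⟨s - 1, by omega⟩
  have hr : 0 < r := by omega
  have h2 : (r + 1) ^ 2 - 1 = (r + 1 + 1) * r := by
    have : (r + 1) ^ 2 = (r + 1 + 1) * r + 1 := by ring
    omega
  rw [h2, Nat.add_sub_cancel] at h1
  exact Nat.le_of_mul_le_mul_right h1 hr

/-- The characters which are trivial on `W`. -/
def pcpDual {G : Type} [Group G] (W : Subgroup G) : Subgroup (G →* ℂˣ) where
  carrier := {χ | W ≤ χ.ker}
  mul_mem' := by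
    intro a b ha hb w hw
    have h1 : a w = 1 := ha hw
    have h2 : b w = 1 := hb hw
    show (a * b) w = 1
    rw [MonoidHom.mul_apply, h1, h2, mul_one]
  one_mem' := by
    intro w _
    rfl
  inv_mem' := by
    intro a ha w hw
    have h1 : a w = 1 := ha hw
    show a⁻¹ w = 1
    rw [MonoidHom.inv_apply, h1, inv_one]

theorem mem_pcpDual {G : Type} [Group G] {W : Subgroup G} {χ : G →* ℂˣ} :
    χ ∈ pcpDual W ↔ W ≤ χ.ker := Iff.rfl

theorem card_pcpDual {G : Type} [Group G] [Finite G] (W : Subgroup G)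
    (hcomm : ∀ x y : G, x * y * x⁻¹ * y⁻¹ ∈ W) : Nat.card (pcpDual W) = W.index := by
  have hW : W.Normal := ⟨fun w hw g => by
    have h1 : g * w * g⁻¹ = (g * w * g⁻¹ * w⁻¹) * w := by group
    rw [h1]
    exact W.mul_mem (hcomm g w) hw⟩
  let _ : CommGroup (G ⧸ W) :=
    { QuotientGroup.Quotient.group W with
      mul_comm := by
        intro a b
        induction a using QuotientGroup.induction_on with
        | H x =>
          induction b using QuotientGroup.induction_on with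
          | H y =>
            change ((x * y : G) : G ⧸ W) = ((y * x : G) : G ⧸ W)
            rw [QuotientGroup.eq]
            have h1 : (x * y)⁻¹ * (y * x) = y⁻¹ * x⁻¹ * (y⁻¹)⁻¹ * (x⁻¹)⁻¹ := by group
            rw [h1]
            exact hcomm _ _ }
  let e : pcpDual W ≃ ((G ⧸ W) →* ℂˣ) :=
    { toFun := fun χ => QuotientGroup.lift W χ.1 χ.2
      invFun := fun ψ => ⟨ψ.comp (QuotientGroup.mk' W), by
        intro w hw
        show ψ (QuotientGroup.mk' W w) = 1
        rw [(QuotientGroup.eq_one_iff w).2 hw |> fun h => (h : QuotientGroup.mk' W w = 1),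
          map_one]⟩
      left_inv := by
        intro χ
        apply Subtype.ext
        ext g
        rfl
      right_inv := by
        intro ψ
        apply MonoidHom.ext
        intro a
        induction a using QuotientGroup.induction_on with
        | H x => rfl }
  rw [Nat.card_congr e, CommGroup.card_monoidHom_of_hasEnoughRootsOfUnity (G ⧸ W) ℂ]
  rfl

theorem sum_index_le {G ι : Type} [Group G] [Finite G] [Fintype ι] (H : ι → Subgroup G)
    (hprod : ∀ i j, i ≠ j → ∀ g : G, ∃ a ∈ H i, ∃ b ∈ H j, g = a * b)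
    (M : Subgroup G) (hM : M.Normal) (hcomm : ∀ x y : G, x * y * x⁻¹ * y⁻¹ ∈ M) :
    ∑ i, ((H i ⊔ M).index - 1) ≤ M.index - 1 := by
  classical
  have hcM := card_pcpDual M hcomm
  have hfin : Finite (pcpDual M) :=
    Nat.finite_of_card_ne_zero (by rw [hcM]; exact Subgroup.FiniteIndex.index_ne_zero)
  have hle : ∀ i, pcpDual (H i ⊔ M) ≤ pcpDual M := fun i χ hχ =>
    mem_pcpDual.2 (le_trans (le_sup_right : M ≤ H i ⊔ M) (mem_pcpDual.1 hχ))
  have hci : ∀ i, Nat.card ((pcpDual (H i ⊔ M)).subgroupOf (pcpDual M)) = (H i ⊔ M).index := by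
    intro i
    rw [Nat.card_congr (Subgroup.subgroupOfEquivOfLe (hle i)).toEquiv]
    exact card_pcpDual _ (fun x y => (le_sup_right : M ≤ H i ⊔ M) (hcomm x y))
  have h1 := sum_card_le (fun i => (pcpDual (H i ⊔ M)).subgroupOf (pcpDual M)) (by
    intro i j hij χ hi hj
    rw [Subgroup.mem_subgroupOf, mem_pcpDual] at hi hj
    apply Subtype.ext
    apply MonoidHom.ext
    intro g
    obtain ⟨a, ha, b, hb, rfl⟩ := hprod i j hij g
    have h2 : (χ : G →* ℂˣ) a = 1 := hi (Subgroup.mem_sup_left ha)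
    have h3 : (χ : G →* ℂˣ) b = 1 := hj (Subgroup.mem_sup_left hb)
    rw [map_mul, h2, h3, mul_one]
    rfl) ⊤
  simp only [inf_top_eq, hci, Subgroup.card_top, hcM] at h1
  exact h1

end Pool.Agent.Helper90.ST
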